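import Pool.Agent.Lib.MP_e62806_an.Example
import Pool.Agent.Lib.MP_e62806_an.Defs2

/-!
For `G = F₂ × ℤ` with central generator `t` and `f = 2 (t - 1)`: `G` lies in the class `𝒢`, the
principal algebraic action on `X_f` is essentially free and weakly mixing,
`H¹(G, ℤG/ℤGf) ≠ 0`, and some circle-valued cocycle of the action is not cohomologous to a
homomorphism.
-/

open MeasureTheory Pool.Agent.Lib.MP_e62806_an

namespace Pool.Agent.Results.MP_e62806_an.Q1Example

theorem result :
    ∃ (G : Type) (_ : Group G) (_ : Countable G) (_ : Infinite G)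
      (e : G ≃* FreeGroup (Fin 2) × Multiplicative ℤ) (t : G) (f : MonoidAlgebra ℤ G),
      e t = (1, Multiplicative.ofAdd 1) ∧ f = twoTsub t ∧ InClass G ∧
      f ∈ nonZeroDivisors (MonoidAlgebra ℤ G) ∧ ¬ H1Vanishes f ∧
      (∃ ν : Measure (PontDual f), IsHaarProb f ν) ∧
      ∀ ν : Measure (PontDual f), IsHaarProb f ν →
        Preserves (dualAct f) ν ∧ EssFree (dualAct f) ν ∧
        WeaklyMixing (dualAct f) ν ∧ ¬ Superrigid (dualAct f) ν := by
  have horb := orbit_infinite (x := (FreeGroup.of 0 : FreeGroup (Fin 2))) fun n hn => by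
    by_contra hne
    exact FreeGroup.of_ne_one _ ((pow_eq_one_iff_left hne).1 hn)
  refine ⟨FreeGroup (Fin 2) × Multiplicative ℤ, inferInstance, inferInstance, inferInstance,
    MulEquiv.refl _, tt _, ff _, rfl, rfl, fun X₀ _ _ μ₀ _ =>
    superrigid_bern μ₀ (MonoidHom.inl _ _) (fun _ _ h => congrArg Prod.fst h) tt_comm tt_order,
    mem_nonZeroDivisors_iff.2
      ⟨fun u h => mul_ff_eq_zero h, fun u h => mul_ff_eq_zero (ff_comm u ▸ h)⟩,
    not_h1Vanishes, exists_haar _, fun ν hν => ?_⟩
  obtain ⟨_, _⟩ := hν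
  exact ⟨mp_dualAct _ ν, fun g hg => free_of_infinite _ ν (range_infinite hg),
    weaklyMixing _ ν horb, fun h => not_h1Vanishes (h1Vanishes_of_superrigid _ ν horb h)⟩

end Pool.Agent.Results.MP_e62806_an.Q1Example
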