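import Pool.Agent.Lib.MP_e62806_an.Split3
import Pool.Agent.Lib.MP_e62806_an.Defs2

/-!
For every countable infinite group `G` all of whose Bernoulli shifts are circle-cocycle superrigid
and every `f ∈ ℤG` with a square-summable convolution inverse, `H¹(G, ℤG/ℤGf)` vanishes and the
principal algebraic action on `X_f` is weakly mixing and circle-cocycle superrigid.
-/

open MeasureTheory Pool.Agent.Lib.MP_e62806_an

namespace Pool.Agent.Results.MP_e62806_an.Q2Superrigid

/-- Some square-summable `u` satisfies `f * u = u * f = δ₁`. -/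
def HasL2Inverse {G : Type} [Group G] (f : MonoidAlgebra ℤ G) : Prop :=
  ∃ u : G → ℂ, Summable (fun g : G => ‖u g‖ ^ 2) ∧
    (∀ h : G, ∑' k : G, ((f.coeff k : ℤ) : ℂ) * u (k⁻¹ * h) =
      (((1 : MonoidAlgebra ℤ G).coeff h : ℤ) : ℂ)) ∧
    (∀ h : G, ∑' k : G, u k * ((f.coeff (k⁻¹ * h) : ℤ) : ℂ) =
      (((1 : MonoidAlgebra ℤ G).coeff h : ℤ) : ℂ))

theorem result (G : Type) [Group G] [Countable G] [Infinite G] (hG : InClass G)
    (f : MonoidAlgebra ℤ G) (hf : InvertibleL1 f ∨ HasL2Inverse f) :
    H1Vanishes f ∧ (∃ ν : Measure (PontDual f), IsHaarProb f ν) ∧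
      ∀ ν : Measure (PontDual f), IsHaarProb f ν →
        Preserves (dualAct f) ν ∧ WeaklyMixing (dualAct f) ν ∧ Superrigid (dualAct f) ν := by
  have hf2 : HasL2Inverse f := by
    rcases hf with ⟨u, hu, h1, h2⟩ | hf
    · refine ⟨u, ?_, h1, h2⟩
      have h0 := hu.tendsto_cofinite_zero.eventually (gt_mem_nhds zero_lt_one)
      refine Summable.of_norm_bounded_eventually hu ?_
      filter_upwards [h0] with g hg
      rw [Real.norm_of_nonneg (by positivity)]
      nlinarith [norm_nonneg (u g)]
    · exact hf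
  obtain ⟨u, hu, h1, h2⟩ := hf2
  have a1 : Summable fun g => (u g).re ^ 2 := by
    refine Summable.of_nonneg_of_le (fun g => by positivity) (fun g => ?_) hu
    rw [← sq_abs]
    exact pow_le_pow_left₀ (abs_nonneg _) (Complex.abs_re_le_norm _) 2
  have a2 : lconv f (fun g => (u g).re) =
      fun k => (((1 : MonoidAlgebra ℤ G).coeff k : ℤ) : ℝ) := by
    funext h
    have := h1 h
    rw [tsum_eq_sum (s := f.coeff.support) (fun k hk => by
      rw [Finsupp.notMem_support_iff.1 hk]; simp)] at this
    have := congrArg Complex.re this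
    rw [Complex.re_sum] at this
    simpa [lconv, Finsupp.sum] using this
  have a3 : rconv (fun g => (u g).re) f =
      fun k => (((1 : MonoidAlgebra ℤ G).coeff k : ℤ) : ℝ) := by
    funext h
    have := h2 h
    rw [← ((Equiv.inv G).trans (Equiv.mulLeft h)).tsum_eq,
      tsum_eq_sum (s := f.coeff.support) (fun k hk => by
        simp [Finsupp.notMem_support_iff.1 hk])] at this
    have := congrArg Complex.re this
    rw [Complex.re_sum] at this
    simpa [rconv, Finsupp.sum] using this
  refine ⟨h1Vanishes_of_l2 (hG (Bool × Bool) coin2) a1 a2 a3, exists_haar f, fun ν hν => ?_⟩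
  obtain ⟨_, _⟩ := hν
  exact ⟨mp_dualAct f ν, (retr a1 a2 ν).weaklyMixing,
    (retr a1 a2 ν).superrigid (hG UnitAddCircle hT)⟩

end Pool.Agent.Results.MP_e62806_an.Q2Superrigid
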